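import Pool.Agent.R839.Motzkin

/-!
# The Artin cone of level one of forms of degree 14 in four variables is not convex
-/

set_option autoImplicit false

open MvPolynomial

namespace Pool.Agent.Results.MP_9eb66c_ag.ArtinConeNotConvex

/-- `f` is a finite sum of squares of real polynomials. -/
def IsSos {n : ℕ} (f : MvPolynomial (Fin n) ℝ) : Prop :=
  ∃ (m : ℕ) (h : Fin m → MvPolynomial (Fin n) ℝ), f = ∑ i, h i ^ 2

/-- The Artin cone of level `r`: the forms `p` of degree `2 d` in `n` variables such that `p q` is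
a sum of squares for some nonzero form `q` of degree `2 r` which is a sum of squares. -/
def artinCone (n d r : ℕ) : Set (MvPolynomial (Fin n) ℝ) :=
  {p | p.IsHomogeneous (2 * d) ∧
    ∃ q : MvPolynomial (Fin n) ℝ, q ≠ 0 ∧ q.IsHomogeneous (2 * r) ∧ IsSos q ∧ IsSos (p * q)}

/-- the Motzkin form -/
def mz {R : Type*} [CommRing R] (u v w : R) : R :=
  v ^ 6 + u ^ 4 * w ^ 2 + u ^ 2 * w ^ 4 - 3 * (u ^ 2 * v ^ 2 * w ^ 2)

theorem mz_mul {R : Type*} [CommRing R] (u v w : R) : mz u v w * (u ^ 2 + v ^ 2) =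
    (v ^ 4 - u ^ 2 * w ^ 2) ^ 2 + (u ^ 3 * w - u * w * v ^ 2) ^ 2 +
      (u * v ^ 3 - u * w ^ 2 * v) ^ 2 := by
  rw [mz]; ring

theorem mz_map {R S : Type*} [CommRing R] [CommRing S] (f : R →+* S) (u v w : R) :
    f (mz u v w) = mz (f u) (f v) (f w) := by
  simp [mz, map_ofNat]

/-- `p₁ = d⁸ M(a, b, c) + c⁸ M(a, b, d)` -/
noncomputable def p1 : MvPolynomial (Fin 4) ℝ :=
  X 3 ^ 8 * mz (X 0) (X 1) (X 2) + X 2 ^ 8 * mz (X 0) (X 1) (X 3)

/-- `p₂ = b⁸ M(c, d, a) + a⁸ M(c, d, b)` -/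
noncomputable def p2 : MvPolynomial (Fin 4) ℝ :=
  X 1 ^ 8 * mz (X 2) (X 3) (X 0) + X 0 ^ 8 * mz (X 2) (X 3) (X 1)

theorem mz_homog (i j k : Fin 4) :
    (mz (X i) (X j) (X k) : MvPolynomial (Fin 4) ℝ).IsHomogeneous 6 := by
  have hX : ∀ i : Fin 4, (X i : MvPolynomial (Fin 4) ℝ).IsHomogeneous 1 :=
    fun i => isHomogeneous_X ℝ i
  unfold mz
  refine IsHomogeneous.sub (IsHomogeneous.add (IsHomogeneous.add ?_ ?_) ?_) ?_
  · simpa using (hX j).pow 6
  · simpa using ((hX i).pow 4).mul ((hX k).pow 2)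
  · simpa using ((hX i).pow 2).mul ((hX k).pow 4)
  · have h := (((hX i).pow 2).mul ((hX j).pow 2)).mul ((hX k).pow 2)
    have h3 : (3 : MvPolynomial (Fin 4) ℝ).IsHomogeneous 0 := by
      have := isHomogeneous_C (Fin 4) (3 : ℝ)
      rwa [map_ofNat] at this
    simpa using h3.mul h

theorem p1_homog : p1.IsHomogeneous (2 * 7) := by
  have hX : ∀ i : Fin 4, (X i : MvPolynomial (Fin 4) ℝ).IsHomogeneous 1 :=
    fun i => isHomogeneous_X ℝ i
  refine IsHomogeneous.add ?_ ?_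
  · simpa using ((hX 3).pow 8).mul (mz_homog 0 1 2)
  · simpa using ((hX 2).pow 8).mul (mz_homog 0 1 3)

theorem p2_homog : p2.IsHomogeneous (2 * 7) := by
  have hX : ∀ i : Fin 4, (X i : MvPolynomial (Fin 4) ℝ).IsHomogeneous 1 :=
    fun i => isHomogeneous_X ℝ i
  refine IsHomogeneous.add ?_ ?_
  · simpa using ((hX 1).pow 8).mul (mz_homog 2 3 0)
  · simpa using ((hX 0).pow 8).mul (mz_homog 2 3 1)

theorem sq_add_sq (i j : Fin 4) :
    (X i ^ 2 + X j ^ 2 : MvPolynomial (Fin 4) ℝ) ≠ 0 ∧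
    (X i ^ 2 + X j ^ 2 : MvPolynomial (Fin 4) ℝ).IsHomogeneous (2 * 1) ∧
    IsSos (X i ^ 2 + X j ^ 2 : MvPolynomial (Fin 4) ℝ) := by
  refine ⟨?_, ?_, ⟨2, ![X i, X j], by simp⟩⟩
  · intro h
    have := congrArg (eval (fun _ => (1 : ℝ))) h
    simp at this
  · have hX : ∀ i : Fin 4, (X i : MvPolynomial (Fin 4) ℝ).IsHomogeneous 1 :=
      fun i => isHomogeneous_X ℝ i
    refine IsHomogeneous.add ?_ ?_
    · simpa using (hX i).pow 2
    · simpa using (hX j).pow 2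

theorem p1_mem : p1 ∈ artinCone 4 7 1 := by
  obtain ⟨h1, h2, h3⟩ := sq_add_sq 0 1
  refine ⟨p1_homog, X 0 ^ 2 + X 1 ^ 2, h1, h2, h3, 6,
    ![X 3 ^ 4 * (X 1 ^ 4 - X 0 ^ 2 * X 2 ^ 2), X 3 ^ 4 * (X 0 ^ 3 * X 2 - X 0 * X 2 * X 1 ^ 2),
      X 3 ^ 4 * (X 0 * X 1 ^ 3 - X 0 * X 2 ^ 2 * X 1),
      X 2 ^ 4 * (X 1 ^ 4 - X 0 ^ 2 * X 3 ^ 2), X 2 ^ 4 * (X 0 ^ 3 * X 3 - X 0 * X 3 * X 1 ^ 2),
      X 2 ^ 4 * (X 0 * X 1 ^ 3 - X 0 * X 3 ^ 2 * X 1)], ?_⟩
  rw [p1, add_mul, mul_assoc, mul_assoc, mz_mul, mz_mul]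
  simp [Fin.sum_univ_succ]
  ring

theorem p2_mem : p2 ∈ artinCone 4 7 1 := by
  obtain ⟨h1, h2, h3⟩ := sq_add_sq 2 3
  refine ⟨p2_homog, X 2 ^ 2 + X 3 ^ 2, h1, h2, h3, 6,
    ![X 1 ^ 4 * (X 3 ^ 4 - X 2 ^ 2 * X 0 ^ 2), X 1 ^ 4 * (X 2 ^ 3 * X 0 - X 2 * X 0 * X 3 ^ 2),
      X 1 ^ 4 * (X 2 * X 3 ^ 3 - X 2 * X 0 ^ 2 * X 3),
      X 0 ^ 4 * (X 3 ^ 4 - X 2 ^ 2 * X 1 ^ 2), X 0 ^ 4 * (X 2 ^ 3 * X 1 - X 2 * X 1 * X 3 ^ 2),
      X 0 ^ 4 * (X 2 * X 3 ^ 3 - X 2 * X 1 ^ 2 * X 3)], ?_⟩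
  rw [p2, add_mul, mul_assoc, mul_assoc, mz_mul, mz_mul]
  simp [Fin.sum_univ_succ]
  ring

open Pool.Agent.R839 in
theorem motzkin_mz : motzkin = mz (X 0) (X 1) (X 2) := rfl

/-- The value of a multiplier at a bad point vanishes. -/
theorem bad_point {m : ℕ} (h : Fin m → MvPolynomial (Fin 4) ℝ) (p q : MvPolynomial (Fin 4) ℝ)
    (hpq : p * q = ∑ i, h i ^ 2) (pt : Fin 4 → ℝ) (hq : 0 ≤ eval pt q)
    (v : Fin 4 → Polynomial (MvPolynomial (Fin 3) ℝ))
    (hv : ∀ i, (v i).coeff 0 = C (pt i))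
    (P' : Polynomial (MvPolynomial (Fin 3) ℝ))
    (hp : aeval v p = Polynomial.X ^ (2 * 3) *
      (Polynomial.C (Pool.Agent.R839.motzkin) + Polynomial.X * P')) : eval pt q = 0 := by
  have h1 := congrArg (aeval v) hpq
  rw [map_mul, hp, map_sum, mul_assoc] at h1
  simp only [map_pow] at h1
  have h2 := Pool.Agent.R839.coeff_sum_sq 3 h1
  have h3 : (aeval v q).coeff 0 = C (eval pt q) := by
    have h4 : (aeval v q).coeff 0 = (Polynomial.evalRingHom (0 : MvPolynomial (Fin 3) ℝ))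
        (aeval v q) := by
      rw [Polynomial.coe_evalRingHom, Polynomial.coeff_zero_eq_eval_zero]
    rw [h4]
    have h5 : ((Polynomial.evalRingHom (0 : MvPolynomial (Fin 3) ℝ)).comp
        (aeval v : MvPolynomial (Fin 4) ℝ →ₐ[ℝ] _).toRingHom) =
        (C : ℝ →+* MvPolynomial (Fin 3) ℝ).comp (eval pt) := by
      apply MvPolynomial.ringHom_ext
      · intro r
        simp
      · intro i
        simp
        rw [← Polynomial.coeff_zero_eq_eval_zero, hv]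
    exact congrArg (fun f : MvPolynomial (Fin 4) ℝ →+* MvPolynomial (Fin 3) ℝ => f q) h5
  rw [Polynomial.mul_coeff_zero, h3] at h2
  simp only [Polynomial.coeff_add, Polynomial.coeff_C_zero, Polynomial.coeff_X_mul_zero,
    add_zero] at h2
  by_contra hne
  exact Pool.Agent.R839.mul_motzkin_not_sum_sq _ _ (lt_of_le_of_ne hq (Ne.symm hne))
    (by rw [mul_comm, h2])

theorem par_aux (c : ℝ) (i0 i1 i2 i3 : ℕ) (h : i0 + i1 + i2 + i3 = 2)
    (x0 x1 x2 x3 y0 y1 y2 y3 : ℝ) :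
    c * ((x0 + y0) ^ i0 * (x1 + y1) ^ i1 * (x2 + y2) ^ i2 * (x3 + y3) ^ i3) +
      c * ((x0 - y0) ^ i0 * (x1 - y1) ^ i1 * (x2 - y2) ^ i2 * (x3 - y3) ^ i3) =
    2 * (c * (x0 ^ i0 * x1 ^ i1 * x2 ^ i2 * x3 ^ i3)) +
      2 * (c * (y0 ^ i0 * y1 ^ i1 * y2 ^ i2 * y3 ^ i3)) := by
  have h0 : i0 ≤ 2 := by omega
  have h1 : i1 ≤ 2 := by omega
  have h2 : i2 ≤ 2 := by omega
  have h3 : i3 = 2 - i0 - i1 - i2 := by omega
  subst h3
  interval_cases i0 <;> interval_cases i1 <;> interval_cases i2 <;>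
    first
    | (exfalso; revert h; norm_num; done)
    | (norm_num; done)
    | (norm_num; ring1)

theorem parallelogram {q : MvPolynomial (Fin 4) ℝ} (hq : q.IsHomogeneous 2) (x y : Fin 4 → ℝ) :
    eval (x + y) q + eval (x - y) q = 2 * eval x q + 2 * eval y q := by
  have hev : ∀ z : Fin 4 → ℝ, eval z q = ∑ m ∈ q.support,
      coeff m q * (z 0 ^ m 0 * z 1 ^ m 1 * z 2 ^ m 2 * z 3 ^ m 3) := by
    intro z
    rw [eval_eq']
    refine Finset.sum_congr rfl fun m _ => ?_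
    rw [Fin.prod_univ_four]
  rw [hev, hev, hev, hev, ← Finset.sum_add_distrib, Finset.mul_sum, Finset.mul_sum,
    ← Finset.sum_add_distrib]
  refine Finset.sum_congr rfl fun m hm => ?_
  have hdeg : m 0 + m 1 + m 2 + m 3 = 2 := by
    have h1 := hq (mem_support_iff.1 hm)
    have h2 : Finsupp.weight (1 : Fin 4 → ℕ) m = ∑ i, m i := by
      rw [Finsupp.weight_apply, Finsupp.sum_fintype _ _ (fun _ => by simp)]
      simp
    rw [h2, Fin.sum_univ_four] at h1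
    exact h1
  exact par_aux _ _ _ _ _ hdeg _ _ _ _ _ _ _ _

theorem quad_zero {q : MvPolynomial (Fin 4) ℝ} (hq : q.IsHomogeneous 2)
    (hpos : ∀ x, 0 ≤ eval x q) (h0 : ∀ i, eval (Pi.single i 1) q = 0) : q = 0 := by
  have hadd : ∀ x y, eval x q = 0 → eval y q = 0 → eval (x + y) q = 0 := by
    intro x y hx hy
    have h1 := parallelogram hq x y
    have h2 := hpos (x + y)
    have h3 := hpos (x - y)
    rw [hx, hy] at h1
    linarith
  have hsmul : ∀ (s : ℝ) x, eval x q = 0 → eval (s • x) q = 0 := by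
    intro s x hx
    have h1 : eval (s • x) q = s ^ 2 * eval x q := by
      rw [eval_eq, eval_eq, Finset.mul_sum]
      refine Finset.sum_congr rfl fun m hm => ?_
      have hm' : m.degree = 2 := by
        have h1 := hq (mem_support_iff.1 hm)
        rw [Finsupp.degree_eq_weight_one]
        exact h1
      simp only [Pi.smul_apply, smul_eq_mul, mul_pow, Finset.prod_mul_distrib]
      rw [Finset.prod_pow_eq_pow_sum]
      have h : ∑ i ∈ m.support, m i = 2 := by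
        rw [← hm']; rfl
      rw [h]
      ring
    rw [h1, hx, mul_zero]
  apply MvPolynomial.funext
  intro x
  rw [map_zero]
  have hx : x = x 0 • Pi.single 0 1 + x 1 • Pi.single 1 1 + x 2 • Pi.single 2 1 +
      x 3 • Pi.single 3 1 := by
    funext i
    fin_cases i <;> simp
  rw [hx]
  exact hadd _ _ (hadd _ _ (hadd _ _ (hsmul _ _ (h0 0)) (hsmul _ _ (h0 1)))
    (hsmul _ _ (h0 2))) (hsmul _ _ (h0 3))

/-- `α_i` -/
noncomputable def cC (i : Fin 3) : Polynomial (MvPolynomial (Fin 3) ℝ) := Polynomial.C (X i)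

/-- `α_i X` -/
noncomputable def cX (i : Fin 3) : Polynomial (MvPolynomial (Fin 3) ℝ) :=
  Polynomial.C (X i) * Polynomial.X

theorem p1_add_p2_not_mem : p1 + p2 ∉ artinCone 4 7 1 := by
  rintro ⟨-, q, hq0, hq2, ⟨k, l, hl⟩, ⟨m, h, hh⟩⟩
  apply hq0
  have hpos : ∀ x, 0 ≤ eval x q := by
    intro x
    rw [hl, map_sum]
    exact Finset.sum_nonneg fun i _ => by rw [map_pow]; exact sq_nonneg _
  have hM : ∀ t : Polynomial (MvPolynomial (Fin 3) ℝ),
      mz (Polynomial.C (X 0) * t) (Polynomial.C (X 1) * t) (Polynomial.C (X 2) * t) =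
      t ^ 6 * Polynomial.C Pool.Agent.R839.motzkin := by
    intro t
    rw [motzkin_mz, mz_map (Polynomial.C : MvPolynomial (Fin 3) ℝ →+* _)]
    unfold mz
    ring
  have hmap : ∀ (v : Fin 4 → Polynomial (MvPolynomial (Fin 3) ℝ)) (i j k : Fin 4),
      aeval v (mz (X i) (X j) (X k) : MvPolynomial (Fin 4) ℝ) = mz (v i) (v j) (v k) := by
    intro v i j k
    have := mz_map (aeval v : MvPolynomial (Fin 4) ℝ →ₐ[ℝ] _).toRingHom (X i) (X j) (X k)
    simpa using this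
  have hp : ∀ v : Fin 4 → Polynomial (MvPolynomial (Fin 3) ℝ), aeval v (p1 + p2) =
      v 3 ^ 8 * mz (v 0) (v 1) (v 2) + v 2 ^ 8 * mz (v 0) (v 1) (v 3) +
      (v 1 ^ 8 * mz (v 2) (v 3) (v 0) + v 0 ^ 8 * mz (v 2) (v 3) (v 1)) := by
    intro v
    simp only [p1, p2, map_add, map_mul, map_pow, aeval_X, hmap]
  refine quad_zero hq2 hpos ?_
  intro i
  fin_cases i
  · refine bad_point h _ q hh (Pi.single 0 1) (hpos _)
      ![1, cX 2, cX 0,
        cX 1] ?_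
      ((Polynomial.X : Polynomial (MvPolynomial (Fin 3) ℝ)) * (cC 1 ^ 8 * mz 1 (cX 2)
          (cX 0) +
        cC 0 ^ 8 * mz 1 (cX 2)
          (cX 1) +
        cC 2 ^ 8 * mz (cX 0)
          (cX 1) 1)) ?_
    · intro i; fin_cases i <;> simp [cX]
    · rw [hp]
      simp only [Matrix.cons_val]
      rw [cX, cX, cX, hM, cC, cC, cC]
      ring
  · refine bad_point h _ q hh (Pi.single 1 1) (hpos _)
      ![cX 2, 1, cX 0,
        cX 1] ?_
      ((Polynomial.X : Polynomial (MvPolynomial (Fin 3) ℝ)) * (cC 1 ^ 8 * mz (cX 2) 1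
          (cX 0) +
        cC 0 ^ 8 * mz (cX 2) 1
          (cX 1) +
        cC 2 ^ 8 * mz (cX 0)
          (cX 1) 1)) ?_
    · intro i; fin_cases i <;> simp [cX]
    · rw [hp]
      simp only [Matrix.cons_val]
      rw [cX, cX, cX, hM, cC, cC, cC]
      ring
  · refine bad_point h _ q hh (Pi.single 2 1) (hpos _)
      ![cX 0, cX 1, 1,
        cX 2] ?_
      ((Polynomial.X : Polynomial (MvPolynomial (Fin 3) ℝ)) * (cC 2 ^ 8 * mz (cX 0)
          (cX 1) 1 +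
        cC 1 ^ 8 * mz 1 (cX 2)
          (cX 0) +
        cC 0 ^ 8 * mz 1 (cX 2)
          (cX 1))) ?_
    · intro i; fin_cases i <;> simp [cX]
    · rw [hp]
      simp only [Matrix.cons_val]
      rw [cX, cX, cX, hM, cC, cC, cC]
      ring
  · refine bad_point h _ q hh (Pi.single 3 1) (hpos _)
      ![cX 0, cX 1,
        cX 2, 1] ?_
      ((Polynomial.X : Polynomial (MvPolynomial (Fin 3) ℝ)) * (cC 2 ^ 8 * mz (cX 0)
          (cX 1) 1 +
        cC 1 ^ 8 * mz (cX 2) 1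
          (cX 0) +
        cC 0 ^ 8 * mz (cX 2) 1
          (cX 1))) ?_
    · intro i; fin_cases i <;> simp [cX]
    · rw [hp]
      simp only [Matrix.cons_val]
      rw [cX, cX, cX, hM, cC, cC, cC]
      ring

theorem smul_mem {n d r : ℕ} {p : MvPolynomial (Fin n) ℝ} (hp : p ∈ artinCone n d r) {s : ℝ}
    (hs : 0 ≤ s) : s • p ∈ artinCone n d r := by
  obtain ⟨h1, q, h2, h3, h4, m, h, hh⟩ := hp
  refine ⟨?_, q, h2, h3, h4, m, fun i => C (Real.sqrt s) * h i, ?_⟩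
  · exact (homogeneousSubmodule (Fin n) ℝ (2 * d)).smul_mem s h1
  · rw [smul_mul_assoc, hh, Finset.smul_sum]
    refine Finset.sum_congr rfl fun i _ => ?_
    rw [mul_pow, ← C_pow, Real.sq_sqrt hs, smul_eq_C_mul]

/-- Not all Artin cones are convex: the Artin cone of level `r = 1` of forms of degree
`2 d = 14` in `n = 4` variables is not convex. -/
theorem result : ¬ ∀ n d r : ℕ, 1 ≤ n → 1 ≤ d → Convex ℝ (artinCone n d r) := by
  intro H
  have h := H 4 7 1 (by norm_num) (by norm_num)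
  have h1 := h p1_mem p2_mem (by norm_num : (0 : ℝ) ≤ 1 / 2) (by norm_num : (0 : ℝ) ≤ 1 / 2)
    (by norm_num)
  have h2 := smul_mem h1 (by norm_num : (0 : ℝ) ≤ 2)
  rw [← smul_add, smul_smul] at h2
  norm_num at h2
  exact p1_add_p2_not_mem h2

end Pool.Agent.Results.MP_9eb66c_ag.ArtinConeNotConvex
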